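import Pool.Agent.H584R2.Selector
import Pool.Agent.H566W.Ana

/-!
# Orbit equivalence relations are Borel on a dense `Gδ` set

Let a Polish group `G` act continuously on a Polish space `Y`, and let `ι : D → Y` be a continuous
map from a Polish space.  There is a dense `Gδ` set `S ⊆ D` such that the orbit equivalence relation,
pulled back to `D`, is Borel on `S`; moreover `S` contains all the points with a neighbourhood of
equivalent points.
-/

set_option autoImplicit false
set_option linter.all false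

namespace Pool.Agent.H420R6

open Filter Topology Set MeasureTheory TopologicalSpace

section

variable {G : Type*} [Group G] [TopologicalSpace G] [IsTopologicalGroup G] [PolishSpace G]
  {Y : Type*} [TopologicalSpace Y] [PolishSpace Y] [MulAction G Y] [ContinuousSMul G Y]
  {D : Type*} [TopologicalSpace D] [PolishSpace D]

/-- If the stabilisers depend on the point `x ∈ A` in a Borel way, then the relation
that `y` lies in the orbit of `ι x` is Borel on `A × Y`. -/
theorem borel_on [MeasurableSpace D] [BorelSpace D] [MeasurableSpace Y] [BorelSpace Y]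
    (ι : D → Y) (hι : Continuous ι) (A : Set D) (hA : MeasurableSet A)
    (hgood : ∀ U : Set G, IsOpen U → MeasurableSet {x : D | x ∈ A ∧ ∃ g ∈ U, g • ι x = ι x}) :
    MeasurableSet {p : D × Y | p.1 ∈ A ∧ ∃ g : G, g • ι p.1 = p.2} := by
  borelize G
  let F : A × G → Set G := fun q => {k : G | k • ι q.1 = q.2 • ι q.1}
  obtain ⟨s, hs1, hs2, hs3⟩ := Pool.Agent.H584R2.Sel.selector F (fun q => ⟨q.2, rfl⟩)
    (fun q => isClosed_eq (continuous_id.smul continuous_const) continuous_const) (by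
      intro O hO
      let B := countableBasis G
      have h1 : {q : A × G | (F q ∩ O).Nonempty} =
          ⋃ V ∈ B, ⋃ W ∈ B, ⋃ (_ : ∀ v ∈ V, ∀ w ∈ W, v * w ∈ O),
            {a : A | (a : D) ∈ A ∧ ∃ g ∈ W, g • ι a = ι a} ×ˢ V := by
        ext ⟨a, g⟩
        simp only [mem_iUnion, mem_prod]
        constructor
        · rintro ⟨k, hk1, hk2⟩
          have hk1 : k • ι a = g • ι a := hk1
          have h2 : g * (g⁻¹ * k) ∈ O := by simpa using hk2
          have h3 : (fun p : G × G => p.1 * p.2) ⁻¹' O ∈ 𝓝 (g, g⁻¹ * k) :=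
            (hO.preimage continuous_mul).mem_nhds h2
          rw [nhds_prod_eq, mem_prod_iff] at h3
          obtain ⟨V0, hV0, W0, hW0, hVW⟩ := h3
          obtain ⟨V, hVB, hgV, hVV⟩ := (isBasis_countableBasis G).mem_nhds_iff.1 hV0
          obtain ⟨W, hWB, hgW, hWW⟩ := (isBasis_countableBasis G).mem_nhds_iff.1 hW0
          refine ⟨V, hVB, W, hWB, ?_, ?_, hgV⟩
          · intro v hv w hw
            exact hVW (Set.mk_mem_prod (hVV hv) (hWW hw))
          · refine ⟨a.2, g⁻¹ * k, hgW, ?_⟩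
            rw [mul_smul, hk1, inv_smul_smul]
        · rintro ⟨V, hVB, W, hWB, hVW, ⟨-, c, hc, hca⟩, hgV⟩
          refine ⟨g * c, ?_, hVW g hgV c hc⟩
          show (g * c) • ι a = g • ι a
          rw [mul_smul, hca]
      rw [h1]
      refine MeasurableSet.biUnion (countable_countableBasis G) fun V hV => ?_
      refine MeasurableSet.biUnion (countable_countableBasis G) fun W hW => ?_
      refine MeasurableSet.iUnion fun _ => ?_
      refine MeasurableSet.prod ?_ (isOpen_of_mem_countableBasis hV).measurableSet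
      exact measurable_subtype_coe (hgood W (isOpen_of_mem_countableBasis hW)))
  let φ : A × G → D × Y := fun q => (q.1, q.2 • ι q.1)
  have hφ : Measurable φ := by
    have : Continuous φ := (continuous_subtype_val.comp continuous_fst).prodMk
      (continuous_snd.smul (hι.comp (continuous_subtype_val.comp continuous_fst)))
    exact this.measurable
  have hT : MeasurableSet {q : A × G | s q = q.2} := measurableSet_eq_fun hs1 measurable_snd
  have hinj : InjOn φ {q : A × G | s q = q.2} := by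
    rintro ⟨a, g⟩ hq ⟨a', g'⟩ hq' heq
    have hq : s (a, g) = g := hq
    have hq' : s (a', g') = g' := hq'
    have h1 : (a : D) = a' := congrArg Prod.fst heq
    have h1 : a = a' := Subtype.ext h1
    subst h1
    have h2 : g • ι a = g' • ι a := congrArg Prod.snd heq
    have h3 : F (a, g) = F (a, g') := by
      ext k
      show k • ι a = g • ι a ↔ k • ι a = g' • ι a
      rw [h2]
    have h4 := hs3 _ _ h3
    rw [hq, hq'] at h4
    rw [h4]
  haveI : StandardBorelSpace A := hA.standardBorel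
  have h5 := hT.image_of_measurable_injOn hφ hinj
  convert h5 using 1
  ext ⟨x, y⟩
  simp only [mem_image]
  constructor
  · rintro ⟨hx, g, hg⟩
    have hx : x ∈ A := hx
    have hg : g • ι x = y := hg
    have h6 : s (⟨x, hx⟩, g) ∈ F (⟨x, hx⟩, g) := hs2 _
    have h6' : s (⟨x, hx⟩, g) • ι x = g • ι x := h6
    refine ⟨(⟨x, hx⟩, s (⟨x, hx⟩, g)), ?_, ?_⟩
    · apply hs3
      ext k
      show k • ι x = s (⟨x, hx⟩, g) • ι x ↔ k • ι x = g • ι x
      rw [h6']
    · show (x, s (⟨x, hx⟩, g) • ι x) = (x, y)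
      rw [h6', hg]
  · rintro ⟨⟨a, g⟩, -, h⟩
    have h1 : (a : D) = x := congrArg Prod.fst h
    have h2 : g • ι a = y := congrArg Prod.snd h
    subst h1
    exact ⟨a.2, g, h2⟩

/-- the set of points fixed by some element of an open set is analytic, hence has the property of
Baire -/
theorem fixed_bp (ι : D → Y) (hι : Continuous ι) (U : Set G) (hU : IsOpen U) :
    ∃ C M : Set D, IsClosed C ∧ IsMeagre M ∧
      ∀ x ∉ M, (x ∈ C ↔ ∃ g ∈ U, g • ι x = ι x) := by
  borelize D
  borelize G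
  let Q : Set (D × G) := {q | q.2 ∈ U ∧ q.2 • ι q.1 = ι q.1}
  have hQ : MeasurableSet Q := by
    refine MeasurableSet.inter ?_ ?_
    · exact (hU.preimage continuous_snd).measurableSet
    · exact (isClosed_eq (continuous_snd.smul (hι.comp continuous_fst))
        (hι.comp continuous_fst)).measurableSet
  have hR : AnalyticSet (Prod.fst '' Q) := hQ.analyticSet.image_of_continuous continuous_fst
  have hR' : ∀ x, x ∈ Prod.fst '' Q ↔ ∃ g ∈ U, g • ι x = ι x := by
    intro x
    constructor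
    · rintro ⟨⟨a, g⟩, ⟨h1, h2⟩, rfl⟩
      exact ⟨g, h1, h2⟩
    · rintro ⟨g, h1, h2⟩
      exact ⟨(x, g), ⟨h1, h2⟩, rfl⟩
  rw [AnalyticSet] at hR
  rcases hR with h0 | ⟨f, hf, hfr⟩
  · refine ⟨∅, ∅, isClosed_empty, IsMeagre.empty, fun x _ => ?_⟩
    rw [← hR' x, h0]
  · refine ⟨Pool.Agent.H566W.Dn (range f),
      (Pool.Agent.H566W.Dn (range f) \ range f) ∪ (range f \ Pool.Agent.H566W.Dn (range f)),
      Pool.Agent.H566W.Dn_closed _, ?_, fun x hx => ?_⟩
    · exact (Pool.Agent.H566W.analytic_bp hf).union (Pool.Agent.H566W.sdiff_Dn _)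
    · rw [← hR' x, ← hfr]
      by_contra hcon
      apply hx
      by_cases h1 : x ∈ Pool.Agent.H566W.Dn (range f)
      · by_cases h2 : x ∈ range f
        · exact absurd (iff_of_true h1 h2) hcon
        · exact Or.inl ⟨h1, h2⟩
      · by_cases h2 : x ∈ range f
        · exact Or.inr ⟨h2, h1⟩
        · exact absurd (iff_of_false h1 h2) hcon

/-- there is a dense `Gδ` set on which the stabilisers depend on the point in a Borel way -/
theorem exists_good (ι : D → Y) (hι : Continuous ι) :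
    ∃ S : Set D, IsGδ S ∧ Dense S ∧ ∀ U : Set G, IsOpen U →
      @MeasurableSet D (borel D) {x : D | x ∈ S ∧ ∃ g ∈ U, g • ι x = ι x} := by
  borelize D
  have h1 : ∀ U : countableBasis G, ∃ C M : Set D, IsClosed C ∧ IsMeagre M ∧
      ∀ x ∉ M, (x ∈ C ↔ ∃ g ∈ (U : Set G), g • ι x = ι x) := fun U =>
    fixed_bp ι hι (U : Set G) (isOpen_of_mem_countableBasis U.2)
  choose C M hC hM hCM using h1
  haveI : Countable (countableBasis G) := (countable_countableBasis G).to_subtype
  have h2 : (⋃ U, M U)ᶜ ∈ residual D := isMeagre_iUnion hM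
  obtain ⟨S, hS1, hS2, hS3⟩ := mem_residual.1 h2
  refine ⟨S, hS2, hS3, fun U hU => ?_⟩
  have h3 : {x : D | x ∈ S ∧ ∃ g ∈ U, g • ι x = ι x} =
      ⋃ (V : countableBasis G) (_ : (V : Set G) ⊆ U), S ∩ C V := by
    ext x
    simp only [mem_iUnion, mem_inter_iff]
    constructor
    · rintro ⟨hx, g, hg, hgx⟩
      obtain ⟨V, hVB, hgV, hVU⟩ := (isBasis_countableBasis G).exists_subset_of_mem_open hg hU
      refine ⟨⟨V, hVB⟩, hVU, hx, ?_⟩
      have hx' : x ∉ M ⟨V, hVB⟩ := fun h => hS1 hx (mem_iUnion.2 ⟨_, h⟩)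
      exact (hCM _ x hx').2 ⟨g, hgV, hgx⟩
    · rintro ⟨V, hVU, hx, hxC⟩
      have hx' : x ∉ M V := fun h => hS1 hx (mem_iUnion.2 ⟨_, h⟩)
      obtain ⟨g, hg, hgx⟩ := (hCM _ x hx').1 hxC
      exact ⟨hx, g, hVU hg, hgx⟩
  rw [h3]
  refine MeasurableSet.iUnion fun V => MeasurableSet.iUnion fun _ => ?_
  exact hS2.measurableSet.inter (hC V).measurableSet

/-- adding countably many points does not matter -/
theorem good_union_countable [MeasurableSpace D] [BorelSpace D] (ι : D → Y) (S T : Set D)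
    (hT : T.Countable)
    (hgood : ∀ U : Set G, IsOpen U → MeasurableSet {x : D | x ∈ S ∧ ∃ g ∈ U, g • ι x = ι x}) :
    ∀ U : Set G, IsOpen U → MeasurableSet {x : D | x ∈ S ∪ T ∧ ∃ g ∈ U, g • ι x = ι x} := by
  intro U hU
  have h1 : {x : D | x ∈ S ∪ T ∧ ∃ g ∈ U, g • ι x = ι x} =
      {x : D | x ∈ S ∧ ∃ g ∈ U, g • ι x = ι x} ∪ {x : D | x ∈ T ∧ ∃ g ∈ U, g • ι x = ι x} := by
    ext x
    constructor
    · rintro ⟨h1 | h1, h2⟩
      · exact Or.inl ⟨h1, h2⟩
      · exact Or.inr ⟨h1, h2⟩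
    · rintro (⟨h1, h2⟩ | ⟨h1, h2⟩)
      · exact ⟨Or.inl h1, h2⟩
      · exact ⟨Or.inr h1, h2⟩
  rw [h1]
  refine (hgood U hU).union (Set.Countable.measurableSet ?_)
  exact hT.mono fun x hx => hx.1

variable (G) in
/-- the points with a neighbourhood of equivalent points (structurally stable points) -/
def stable (ι : D → Y) : Set D :=
  {x | ∃ U : Set D, IsOpen U ∧ x ∈ U ∧ ∀ y ∈ U, ∃ g : G, g • ι x = ι y}

variable (G) in
/-- The main theorem. -/
theorem main (ι : D → Y) (hι : Continuous ι) :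
    ∃ S : Set D, IsGδ S ∧ Dense S ∧ stable G ι ⊆ S ∧
      @MeasurableSet (D × D) (borel (D × D))
        {p : D × D | p.1 ∈ S ∧ p.2 ∈ S ∧ ∃ g : G, g • ι p.1 = ι p.2} := by
  obtain ⟨S, hS1, hS2, hS3⟩ := exists_good (G := G) ι hι
  borelize D
  borelize Y
  -- the stable points
  have hop : IsOpen (stable G ι) := by
    rw [isOpen_iff_forall_mem_open]
    rintro x ⟨U, hU, hxU, h⟩
    refine ⟨U, fun y hy => ⟨U, hU, hy, fun z hz => ?_⟩, hU, hxU⟩
    obtain ⟨g, hg⟩ := h y hy
    obtain ⟨k, hk⟩ := h z hz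
    refine ⟨k * g⁻¹, ?_⟩
    rw [mul_smul, ← hg, inv_smul_smul, hk]
  -- countably many representatives
  obtain ⟨T, hT1, hT2, hT3⟩ : ∃ T : Set D, T.Countable ∧ T ⊆ stable G ι ∧
      ∀ x ∈ stable G ι, ∃ t ∈ T, ∃ g : G, g • ι t = ι x := by
    let P : Set (Set D) := {B ∈ countableBasis D | ∃ t ∈ B, ∀ y ∈ B, ∃ g : G, g • ι t = ι y}
    have hP : P.Countable := (countable_countableBasis D).mono fun B hB => hB.1
    have hex : ∀ B : P, ∃ t ∈ (B : Set D), ∀ y ∈ (B : Set D), ∃ g : G, g • ι t = ι y :=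
      fun B => B.2.2
    choose t ht1 ht2 using hex
    haveI : Countable P := hP.to_subtype
    refine ⟨range t, countable_range t, ?_, fun x hx => ?_⟩
    · rintro _ ⟨B, rfl⟩
      exact ⟨B, isOpen_of_mem_countableBasis B.2.1, ht1 B, ht2 B⟩
    · obtain ⟨U, hU, hxU, h⟩ := hx
      obtain ⟨B, hB, hxB, hBU⟩ := (isBasis_countableBasis D).exists_subset_of_mem_open hxU hU
      have hBP : B ∈ P := ⟨hB, x, hxB, fun y hy => h y (hBU hy)⟩
      exact ⟨t ⟨B, hBP⟩, ⟨_, rfl⟩, ht2 ⟨B, hBP⟩ x hxB⟩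
  have hE := borel_on (G := G) ι hι (S ∪ T) (hS1.measurableSet.union hT1.measurableSet)
    (good_union_countable ι S T hT1 hS3)
  set E : Set (D × D) := {p | p.1 ∈ S ∪ T ∧ ∃ g : G, g • ι p.1 = ι p.2} with hEdef
  have hE' : MeasurableSet E := by
    have h1 : Measurable fun p : D × D => (p.1, ι p.2) :=
      measurable_fst.prodMk (hι.measurable.comp measurable_snd)
    exact h1 hE
  refine ⟨S ∪ stable G ι, ?_, hS2.mono subset_union_left, subset_union_right, ?_⟩
  · exact hS1.union hop.isGδ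
  · rw [← BorelSpace.measurable_eq (α := D × D)]
    have h1 : {p : D × D | p.1 ∈ S ∪ stable G ι ∧ p.2 ∈ S ∪ stable G ι ∧
        ∃ g : G, g • ι p.1 = ι p.2} =
        ((S ∪ stable G ι) ×ˢ (S ∪ stable G ι)) ∩ (((S ×ˢ univ) ∩ E) ∪
          ⋃ t ∈ T, {p : D × D | (t, p.1) ∈ E ∧ (t, p.2) ∈ E}) := by
      ext ⟨x, y⟩
      simp only [mem_inter_iff, mem_prod, mem_univ, and_true]
      constructor
      · rintro ⟨hx, hy, g, hg⟩
        have hg : g • ι x = ι y := hg
        refine ⟨⟨hx, hy⟩, ?_⟩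
        rcases hx with hx | hx
        · exact Or.inl ⟨⟨hx, trivial⟩, Or.inl hx, g, hg⟩
        · right
          obtain ⟨t, ht, k, hk⟩ := hT3 x hx
          refine mem_iUnion₂.2 ⟨t, ht, ⟨Or.inr ht, k, hk⟩, ⟨Or.inr ht, g * k, ?_⟩⟩
          show (g * k) • ι t = ι y
          rw [mul_smul, hk, hg]
      · rintro ⟨⟨hx, hy⟩, ⟨-, -, g, hg⟩ | h⟩
        · exact ⟨hx, hy, g, hg⟩
        · obtain ⟨t, ht, ⟨-, k, hk⟩, ⟨-, l, hl⟩⟩ := mem_iUnion₂.1 h
          have hk : k • ι t = ι x := hk
          have hl : l • ι t = ι y := hl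
          refine ⟨hx, hy, l * k⁻¹, ?_⟩
          show (l * k⁻¹) • ι x = ι y
          rw [mul_smul, ← hk, inv_smul_smul, hl]
    have hW : MeasurableSet (S ∪ stable G ι) := hS1.measurableSet.union hop.measurableSet
    rw [h1]
    refine (hW.prod hW).inter ((((hS1.measurableSet).prod MeasurableSet.univ).inter hE').union ?_)
    refine MeasurableSet.biUnion hT1 fun t _ => ?_
    exact ((measurable_prodMk_left.comp measurable_fst) hE').inter
      ((measurable_prodMk_left.comp measurable_snd) hE')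

end

end Pool.Agent.H420R6
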