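import Pool.Agent.H420R6.Core

/-!
# The homeomorphism group of a compact metrizable space, acting by conjugation on `C(M, M)`
-/

set_option autoImplicit false
set_option linter.all false

namespace Pool.Agent.H420R6

open Filter Topology Set MeasureTheory TopologicalSpace

section

variable (M : Type*) [TopologicalSpace M]

/-- pairs of mutually inverse continuous maps -/
def HP : Type _ :=
  {p : C(M, M) × C(M, M) // p.1.comp p.2 = ContinuousMap.id M ∧ p.2.comp p.1 = ContinuousMap.id M}

variable {M}

instance : TopologicalSpace (HP M) := inferInstanceAs (TopologicalSpace {p : C(M, M) × C(M, M) //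
  p.1.comp p.2 = ContinuousMap.id M ∧ p.2.comp p.1 = ContinuousMap.id M})

instance : Group (HP M) where
  mul p q := ⟨(p.1.1.comp q.1.1, q.1.2.comp p.1.2), by
    constructor
    · ext x
      have h1 := DFunLike.congr_fun q.2.1 (p.1.2 x)
      have h2 := DFunLike.congr_fun p.2.1 x
      simp only [ContinuousMap.comp_apply, ContinuousMap.id_apply] at h1 h2 ⊢
      rw [h1, h2]
    · ext x
      have h1 := DFunLike.congr_fun p.2.2 (q.1.1 x)
      have h2 := DFunLike.congr_fun q.2.2 x
      simp only [ContinuousMap.comp_apply, ContinuousMap.id_apply] at h1 h2 ⊢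
      rw [h1, h2]⟩
  one := ⟨(ContinuousMap.id M, ContinuousMap.id M), rfl, rfl⟩
  inv p := ⟨(p.1.2, p.1.1), p.2.2, p.2.1⟩
  mul_assoc p q r := Subtype.ext rfl
  one_mul p := Subtype.ext rfl
  mul_one p := Subtype.ext rfl
  inv_mul_cancel p := Subtype.ext (Prod.ext p.2.2 p.2.2)

theorem HP.mul_val (p q : HP M) : (p * q).1 = (p.1.1.comp q.1.1, q.1.2.comp p.1.2) := rfl

theorem HP.inv_val (p : HP M) : (p⁻¹).1 = (p.1.2, p.1.1) := rfl

instance [LocallyCompactSpace M] : IsTopologicalGroup (HP M) where
  continuous_mul := by
    have h1 : Continuous fun q : HP M × HP M => q.1.1 := continuous_subtype_val.comp continuous_fst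
    have h2 : Continuous fun q : HP M × HP M => q.2.1 := continuous_subtype_val.comp continuous_snd
    refine Continuous.subtype_mk (f := fun q : HP M × HP M =>
      (q.1.1.1.comp q.2.1.1, q.2.1.2.comp q.1.1.2)) ?_ _
    exact (ContinuousMap.continuous_comp'.comp
      ((continuous_fst.comp h2).prodMk (continuous_fst.comp h1))).prodMk
      (ContinuousMap.continuous_comp'.comp
      ((continuous_snd.comp h1).prodMk (continuous_snd.comp h2)))
  continuous_inv := by
    have h1 : Continuous fun q : HP M => q.1 := continuous_subtype_val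
    exact Continuous.subtype_mk (f := fun q : HP M => (q.1.2, q.1.1))
      ((continuous_snd.comp h1).prodMk (continuous_fst.comp h1)) _

instance : MulAction (HP M) C(M, M) where
  smul p f := p.1.1.comp (f.comp p.1.2)
  one_smul f := rfl
  mul_smul p q f := rfl

theorem HP.smul_def (p : HP M) (f : C(M, M)) : p • f = p.1.1.comp (f.comp p.1.2) := rfl

instance [LocallyCompactSpace M] : ContinuousSMul (HP M) C(M, M) where
  continuous_smul := by
    have h1 : Continuous fun q : HP M × C(M, M) => q.1.1 :=
      continuous_subtype_val.comp continuous_fst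
    exact ContinuousMap.continuous_comp'.comp ((ContinuousMap.continuous_comp'.comp
      ((continuous_snd.comp h1).prodMk continuous_snd)).prodMk (continuous_fst.comp h1))

theorem polish_C [CompactSpace M] [T2Space M] [SecondCountableTopology M] :
    PolishSpace C(M, M) := by
  letI : MetricSpace M := TopologicalSpace.metrizableSpaceMetric M
  infer_instance

theorem polish_HP [CompactSpace M] [T2Space M] [SecondCountableTopology M] :
    PolishSpace (HP M) := by
  haveI := polish_C (M := M)
  have h : IsClosed {p : C(M, M) × C(M, M) | p.1.comp p.2 = ContinuousMap.id M ∧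
      p.2.comp p.1 = ContinuousMap.id M} := by
    refine IsClosed.inter ?_ ?_
    · exact isClosed_eq (ContinuousMap.continuous_comp'.comp continuous_swap) continuous_const
    · exact isClosed_eq ContinuousMap.continuous_comp' continuous_const
  exact h.polishSpace

/-- conjugacy in terms of the action -/
theorem conj_iff (f g : C(M, M)) :
    (∃ h : M ≃ₜ M, ∀ x, h (f x) = g (h x)) ↔ ∃ p : HP M, p • f = g := by
  constructor
  · rintro ⟨h, hh⟩
    refine ⟨⟨(⟨h, h.continuous⟩, ⟨h.symm, h.symm.continuous⟩), ?_, ?_⟩, ?_⟩
    · ext x; exact h.apply_symm_apply x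
    · ext x; exact h.symm_apply_apply x
    · ext x
      show h (f (h.symm x)) = g x
      rw [hh, h.apply_symm_apply]
  · rintro ⟨p, rfl⟩
    refine ⟨⟨⟨p.1.1, p.1.2, fun x => DFunLike.congr_fun p.2.2 x,
      fun x => DFunLike.congr_fun p.2.1 x⟩, p.1.1.continuous, p.1.2.continuous⟩, fun x => ?_⟩
    show p.1.1 (f x) = p.1.1 (f (p.1.2 (p.1.1 x)))
    have := DFunLike.congr_fun p.2.2 x
    simp only [ContinuousMap.comp_apply, ContinuousMap.id_apply] at this
    rw [this]

end

end Pool.Agent.H420R6
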