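import Pool.Agent.H306R2.RG.StubsA
import Pool.Agent.H413R3.RG_FE1
import Pool.Agent.H419R2.RG_PE5

set_option autoImplicit false

/-! Project RG, task PH1: the squares on the dual side, families `F1` (adapted from H407R2.RZ_P6).
Only the definitions of the stub file are used; the statements FE1, FE2, PE5 are hypotheses of `PH1_of`. -/

namespace Pool.Agent.H420R6.RG_PH1

open Finset Filter Topology MeasureTheory Pool.Agent.H306R2.RZ Pool.Agent.H306R2.RG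
open Pool.Agent.H306R2.RG.StubsA (Fme bb1 bb2 gz)

noncomputable section

/-- the bound for the Gauss sums that is needed here -/
theorem Gk_bound (k : ℤ) (n : ℕ) : |Gk k n| ≤ 2 * n := by
  unfold Gk
  refine (Finset.abs_sum_le_sum_abs _ _).trans ?_
  have h : ∀ r ∈ range n, |js (r : ℤ) n * cas (2 * Real.pi * (k : ℝ) * (r : ℝ) / (n : ℝ))| ≤ 2 := by
    intro r _
    rw [abs_mul]
    have h1 : |js (r : ℤ) n| ≤ 1 := by
      unfold js
      rcases jacobiSym.trichotomy (r : ℤ) n with h | h | h <;> rw [h] <;> simp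
    have h2 : |cas (2 * Real.pi * (k : ℝ) * (r : ℝ) / (n : ℝ))| ≤ 2 := by
      unfold cas
      refine (abs_add_le _ _).trans ?_
      have := Real.abs_cos_le_one (2 * Real.pi * (k : ℝ) * (r : ℝ) / (n : ℝ))
      have := Real.abs_sin_le_one (2 * Real.pi * (k : ℝ) * (r : ℝ) / (n : ℝ))
      linarith
    nlinarith [abs_nonneg (js (r : ℤ) n),
      abs_nonneg (cas (2 * Real.pi * (k : ℝ) * (r : ℝ) / (n : ℝ)))]
  refine (Finset.sum_le_sum h).trans ?_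
  rw [Finset.sum_const, Finset.card_range, nsmul_eq_mul]
  linarith

theorem xi_cpow (X : ℝ) (hX : 0 < X) (n : ℕ) (hn : 0 < n) (j : ℕ) (s : ℂ) :
    (((((j : ℝ) + 1) ^ 2 * X / n : ℝ)) : ℂ) ^ (-s) =
      ((j : ℂ) + 1) ^ (-(2 * s)) * (((X : ℝ) : ℂ) ^ (-s) * (n : ℂ) ^ s) := by
  have hj : (0 : ℝ) < (j : ℝ) + 1 := by positivity
  have hn' : (0 : ℝ) < (n : ℝ) := by exact_mod_cast hn
  have e1 : ((j : ℝ) + 1) ^ 2 * X / n = (((j : ℝ) + 1) * ((j : ℝ) + 1)) * (X * (n : ℝ)⁻¹) := by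
    field_simp
  rw [e1]
  rw [Complex.ofReal_mul, Complex.mul_cpow_ofReal_nonneg (by positivity) (by positivity)]
  rw [Complex.ofReal_mul, Complex.mul_cpow_ofReal_nonneg (by positivity) (by positivity)]
  rw [Complex.ofReal_mul, Complex.mul_cpow_ofReal_nonneg (by positivity) (by positivity)]
  have e2 : ((j : ℂ) + 1) ^ (-(2 * s)) = (((j : ℝ) + 1 : ℝ) : ℂ) ^ (-s) * (((j : ℝ) + 1 : ℝ) : ℂ) ^ (-s) := by
    rw [← Complex.cpow_add _ _ (by exact_mod_cast hj.ne')]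
    push_cast
    congr 1
    ring
  rw [e2]
  have e3 : (((n : ℝ)⁻¹ : ℝ) : ℂ) ^ (-s) = (n : ℂ) ^ s := by
    rw [Complex.ofReal_inv, Complex.inv_cpow, ← Complex.cpow_neg, neg_neg]
    · norm_num
    · rw [Complex.ofReal_natCast, Complex.natCast_arg]
      exact Real.pi_pos.ne
  rw [e3]

/-- the general statement behind P6 -/
theorem core (M : ℂ → ℂ) (Ff : ℝ → ℝ) (hdiff : DifferentiableOn ℂ M {s | 0 < s.re})
    (hbd : ∃ C : ℝ, ∀ s : ℂ, 0 < s.re → s.re ≤ 1 → ‖M s‖ ≤ C / (‖s‖ * (1 + ‖s‖) ^ 1))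
    (σ0 : ℝ) (h0 : 1 / 2 < σ0) (h1 : σ0 ≤ 1)
    (hM : ∀ ξ : ℝ, 0 < ξ → (Ff ξ : ℂ) = (1 / (2 * Real.pi) : ℂ) *
        ∫ t : ℝ, M ((σ0 : ℂ) + t * Complex.I) * (ξ : ℂ) ^ (-((σ0 : ℂ) + t * Complex.I)))
    (X : ℝ) (hX : 0 < X) (n : ℕ) (hnpos : 0 < n) (g : ℕ → ℝ) (G : ℝ) (hgb : ∀ j, |g j| ≤ G)
    (W K : ℂ → ℂ)
    (hW : ∀ s : ℂ, 1 / 2 < s.re → HasSum (fun j : ℕ => (g j : ℂ) * ((j : ℂ) + 1) ^ (-(2 * s)))
      (W s * (n : ℂ) ^ (1 - s) * K s)) :
    Integrable (fun t : ℝ => M ((σ0 : ℂ) + t * Complex.I) *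
        (X : ℂ) ^ (-((σ0 : ℂ) + t * Complex.I)) * W ((σ0 : ℂ) + t * Complex.I) *
        K ((σ0 : ℂ) + t * Complex.I)) ∧
    (((∑' j : ℕ, g j * Ff (((j : ℝ) + 1) ^ 2 * X / n)) / n : ℝ) : ℂ) =
      (1 / (2 * Real.pi) : ℂ) * ∫ t : ℝ, M ((σ0 : ℂ) + t * Complex.I) *
        (X : ℂ) ^ (-((σ0 : ℂ) + t * Complex.I)) * W ((σ0 : ℂ) + t * Complex.I) *
        K ((σ0 : ℂ) + t * Complex.I) := by
  have hn' : (0 : ℝ) < (n : ℝ) := by exact_mod_cast hnpos
  have hnc : (n : ℂ) ≠ 0 := by exact_mod_cast hnpos.ne'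
  have hσ : 0 < σ0 := by linarith
  have hG0 : 0 ≤ G := (abs_nonneg _).trans (hgb 0)
  obtain ⟨C, hC⟩ := hbd
  -- abbreviations
  set S : ℝ → ℂ := fun t => (σ0 : ℂ) + t * Complex.I with hS
  have hSre : ∀ t, (S t).re = σ0 := by intro t; simp [hS]
  have hSim : ∀ t, (S t).im = t := by intro t; simp [hS]
  have hScont : Continuous S := by
    simp only [hS]
    fun_prop
  have hFcont : Continuous (fun t => M (S t)) := by
    have h2 : ContinuousOn M {s | 0 < s.re} := hdiff.continuousOn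
    refine h2.comp_continuous hScont ?_
    intro t
    simp only [Set.mem_ofPred_eq, hSre]
    exact hσ
  have hFb : ∀ t : ℝ, ‖M (S t)‖ ≤ (|C| / σ0) * (1 + t ^ 2)⁻¹ := by
    intro t
    have h2 := hC (S t) (by rw [hSre]; exact hσ) (by rw [hSre]; exact h1)
    refine h2.trans ?_
    have h3 : σ0 ≤ ‖S t‖ := by
      have := Complex.abs_re_le_norm (S t)
      rw [hSre, abs_of_pos hσ] at this
      exact this
    have h4 : t ^ 2 ≤ ‖S t‖ ^ 2 := by
      have := Complex.abs_im_le_norm (S t)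
      rw [hSim] at this
      rw [← sq_abs t]
      exact pow_le_pow_left₀ (abs_nonneg _) this 2
    have h5 : σ0 * (1 + t ^ 2) ≤ ‖S t‖ * (1 + ‖S t‖) ^ 1 := by
      have h6 : σ0 * t ^ 2 ≤ t ^ 2 := by nlinarith [sq_nonneg t]
      nlinarith
    have h7 : 0 < σ0 * (1 + t ^ 2) := by positivity
    calc C / (‖S t‖ * (1 + ‖S t‖) ^ 1) ≤ |C| / (‖S t‖ * (1 + ‖S t‖) ^ 1) := by
          apply div_le_div_of_nonneg_right (le_abs_self C)
          exact (h7.trans_le h5).le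
      _ ≤ |C| / (σ0 * (1 + t ^ 2)) := by
          apply div_le_div_of_nonneg_left (abs_nonneg C) h7 h5
      _ = (|C| / σ0) * (1 + t ^ 2)⁻¹ := by
          field_simp
  have hFb1 : ∀ t : ℝ, ‖M (S t)‖ ≤ |C| / σ0 := by
    intro t
    refine (hFb t).trans ?_
    have h2 : (1 + t ^ 2)⁻¹ ≤ 1 := inv_le_one_of_one_le₀ (by nlinarith [sq_nonneg t])
    have h3 : 0 ≤ |C| / σ0 := by positivity
    nlinarith
  have hFint : Integrable (fun t => M (S t)) := by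
    refine Integrable.mono' (integrable_inv_one_add_sq.const_mul (|C| / σ0))
      hFcont.aestronglyMeasurable ?_
    exact Eventually.of_forall hFb
  -- the terms
  set ξ : ℕ → ℝ := fun j => ((j : ℝ) + 1) ^ 2 * X / n with hξ
  have hξpos : ∀ j, 0 < ξ j := by intro j; simp only [hξ]; positivity
  set T : ℕ → ℝ → ℂ := fun j t => (g j : ℂ) * (M (S t) * (ξ j : ℂ) ^ (-(S t))) with hT
  have hTnorm : ∀ j t, ‖T j t‖ = |g j| * ξ j ^ (-σ0) * ‖M (S t)‖ := by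
    intro j t
    simp only [hT, norm_mul, Complex.norm_real, Real.norm_eq_abs]
    rw [Complex.norm_cpow_eq_rpow_re_of_pos (hξpos j)]
    rw [Complex.neg_re, hSre]
    ring
  have hTcont : ∀ j, Continuous (T j) := by
    intro j
    simp only [hT]
    refine continuous_const.mul (hFcont.mul ?_)
    have : (ξ j : ℂ) ≠ 0 := by exact_mod_cast (hξpos j).ne'
    exact (hScont.neg).const_cpow (Or.inl this)
  have hTint : ∀ j, Integrable (T j) := by
    intro j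
    refine Integrable.mono' (hFint.norm.const_mul (|g j| * ξ j ^ (-σ0)))
      (hTcont j).aestronglyMeasurable ?_
    exact Eventually.of_forall (fun t => (hTnorm j t).le)
  have hs1 : Summable (fun j => |g j| * ξ j ^ (-σ0)) := by
    have hs0 : Summable (fun j : ℕ => ((j : ℝ) + 1) ^ (-(2 * σ0))) := by
      have := (Real.summable_nat_rpow (p := -(2 * σ0))).2 (by linarith)
      have h2 := (summable_nat_add_iff 1).2 this
      refine h2.congr ?_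
      intro j
      push_cast
      rfl
    refine Summable.of_nonneg_of_le (fun j => by have := hξpos j; positivity) (fun j => ?_)
      (hs0.mul_left (G * (X / n) ^ (-σ0)))
    have e2 : ξ j ^ (-σ0) = ((j : ℝ) + 1) ^ (-(2 * σ0)) * (X / n) ^ (-σ0) := by
      have e3 : ξ j = ((j : ℝ) + 1) ^ (2 : ℝ) * (X / n) := by
        simp only [hξ]
        rw [Real.rpow_two]
        ring
      rw [e3, Real.mul_rpow (by positivity) (by positivity), ← Real.rpow_mul (by positivity)]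
      congr 2
      ring
    rw [e2]
    have h8 : 0 ≤ ((j : ℝ) + 1) ^ (-(2 * σ0)) * (X / n) ^ (-σ0) := by positivity
    calc |g j| * (((j : ℝ) + 1) ^ (-(2 * σ0)) * (X / n) ^ (-σ0))
        ≤ G * (((j : ℝ) + 1) ^ (-(2 * σ0)) * (X / n) ^ (-σ0)) :=
          mul_le_mul_of_nonneg_right (hgb j) h8
      _ = G * (X / n) ^ (-σ0) * ((j : ℝ) + 1) ^ (-(2 * σ0)) := by ring
  have hsum : Summable (fun j => ∫ t, ‖T j t‖) := by
    have e : ∀ j, ∫ t, ‖T j t‖ = |g j| * ξ j ^ (-σ0) * ∫ t, ‖M (S t)‖ := by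
      intro j
      rw [← integral_const_mul]
      exact integral_congr_ae (Eventually.of_forall (fun t => hTnorm j t))
    simp only [e]
    exact hs1.mul_right _
  have key := hasSum_integral_of_summable_integral_norm hTint hsum
  -- pointwise sum
  have hpt : ∀ t, (∑' j, T j t) = (n : ℂ) * (M (S t) * (X : ℂ) ^ (-(S t)) *
        W (S t) * K (S t)) := by
    intro t
    have h5 := hW (S t) (by rw [hSre]; exact h0)
    have h6 := h5.mul_left (M (S t) * ((X : ℂ) ^ (-(S t)) * (n : ℂ) ^ (S t)))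
    have h7 : HasSum (fun j => T j t) ((M (S t) * ((X : ℂ) ^ (-(S t)) * (n : ℂ) ^ (S t))) *
        (W (S t) * (n : ℂ) ^ (1 - S t) * K (S t))) := by
      refine h6.congr_fun ?_ |> id
      intro j
      simp only [hT, hξ]
      rw [xi_cpow X hX n hnpos j (S t)]
      ring
    rw [h7.tsum_eq]
    have e4 : (n : ℂ) ^ (S t) * (n : ℂ) ^ (1 - S t) = n := by
      rw [← Complex.cpow_add _ _ hnc]
      simp
    calc (M (S t) * ((X : ℂ) ^ (-(S t)) * (n : ℂ) ^ (S t))) *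
        (W (S t) * (n : ℂ) ^ (1 - S t) * K (S t))
        = ((n : ℂ) ^ (S t) * (n : ℂ) ^ (1 - S t)) * (M (S t) * (X : ℂ) ^ (-(S t)) *
        W (S t) * K (S t)) := by ring
      _ = _ := by rw [e4]
  -- integrability of the sum
  have hcontsum : Continuous (fun t => ∑' j, T j t) := by
    refine continuous_tsum hTcont (hs1.mul_right (|C| / σ0)) (fun j t => ?_)
    rw [hTnorm]
    exact mul_le_mul_of_nonneg_left (hFb1 t) (by have := hξpos j; positivity)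
  have hintsum : Integrable (fun t => ∑' j, T j t) := by
    refine Integrable.mono' (hFint.norm.const_mul (∑' j, |g j| * ξ j ^ (-σ0)))
      hcontsum.aestronglyMeasurable (Eventually.of_forall fun t => ?_)
    refine tsum_of_norm_bounded (hs1.hasSum.mul_right ‖M (S t)‖) (fun j => ?_)
    rw [hTnorm]
  have hint : Integrable (fun t : ℝ => M (S t) * (X : ℂ) ^ (-(S t)) * W (S t) * K (S t)) := by
    refine (hintsum.const_mul ((n : ℂ)⁻¹)).congr (Eventually.of_forall fun t => ?_)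
    simp only [hpt]
    field_simp
  refine ⟨hint, ?_⟩
  have hterm : ∀ j, (g j : ℂ) * (Ff (ξ j) : ℂ) = (1 / (2 * Real.pi) : ℂ) * ∫ t, T j t := by
    intro j
    rw [hM (ξ j) (hξpos j)]
    simp only [hT]
    rw [integral_const_mul]
    ring
  have hleft : (((∑' j : ℕ, g j * Ff (ξ j)) / n : ℝ) : ℂ) =
      (∑' j, (g j : ℂ) * (Ff (ξ j) : ℂ)) / n := by
    push_cast
    rfl
  rw [hleft]
  simp only [hterm]
  rw [tsum_mul_left, key.tsum_eq]
  simp only [hpt]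
  rw [integral_const_mul]
  field_simp
  rfl

theorem bb1_sq (j : ℕ) : bb1 (((j : ℤ) + 1) ^ 2) = 1 := by
  unfold bb1
  have h : ((j : ℤ) + 1) % 4 = 0 ∨ ((j : ℤ) + 1) % 4 = 1 ∨ ((j : ℤ) + 1) % 4 = 2 ∨
      ((j : ℤ) + 1) % 4 = 3 := by omega
  have h2 : (((j : ℤ) + 1) ^ 2) % 4 = (((j : ℤ) + 1) % 4) ^ 2 % 4 :=
    (Int.ModEq.pow 2 (Int.mod_modEq _ _)).symm
  rcases h with h | h | h | h <;> rw [h2, h] <;> norm_num

theorem bb2_sq (j : ℕ) : bb2 (((j : ℤ) + 1) ^ 2) = if Odd (j + 1) then 1 else 0 := by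
  unfold bb2
  have h2 : (((j : ℤ) + 1) ^ 2) % 8 = (((j : ℤ) + 1) % 8) ^ 2 % 8 :=
    (Int.ModEq.pow 2 (Int.mod_modEq _ _)).symm
  by_cases ho : Odd (j + 1)
  · rw [if_pos ho, if_pos]
    rw [h2]
    rw [Nat.odd_iff] at ho
    have h : ((j : ℤ) + 1) % 8 = 1 ∨ ((j : ℤ) + 1) % 8 = 3 ∨ ((j : ℤ) + 1) % 8 = 5 ∨
      ((j : ℤ) + 1) % 8 = 7 := by omega
    rcases h with h | h | h | h <;> rw [h] <;> norm_num
  · rw [if_neg ho]
    rw [Nat.odd_iff] at ho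
    have h : ((j : ℤ) + 1) % 8 = 0 ∨ ((j : ℤ) + 1) % 8 = 2 ∨ ((j : ℤ) + 1) % 8 = 4 ∨
      ((j : ℤ) + 1) % 8 = 6 := by omega
    rcases h with h | h | h | h <;> rw [h2, h] <;> norm_num

theorem PH1_of
    (FE1 : ∀ (ε : ℤ) (_ : ε = 1 ∨ ε = -1) (F : ℝ → ℝ) (_ : TF F), HP (Fme ε F) (Ft F 0))
    (FE2 : ∀ (ε : ℤ) (_ : ε = 1 ∨ ε = -1) (F : ℝ → ℝ) (_ : TF F) (ξ : ℝ) (_ : 0 < ξ) (σ0 : ℝ)
      (_ : 0 < σ0) (_ : σ0 ≤ 1),
      (Ft F ((ε : ℝ) * ξ) : ℂ) = (1 / (2 * Real.pi) : ℂ) *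
        ∫ t : ℝ, Fme ε F ((σ0 : ℂ) + t * Complex.I) * (ξ : ℂ) ^ (-((σ0 : ℂ) + t * Complex.I)))
    (PE5 : ∀ (n : ℕ) (_ : Odd n) (s : ℂ) (_ : 1 / 2 < s.re),
      HasSum (fun j : ℕ => (Gk (((j : ℤ) + 1) ^ 2) n : ℂ) * ((j : ℂ) + 1) ^ (-(2 * s)))
        (riemannZeta (2 * s) * (n : ℂ) ^ (1 - s) * ks s n) ∧
      HasSum (fun j : ℕ => if Odd (j + 1) then
          (Gk (((j : ℤ) + 1) ^ 2) n : ℂ) * ((j : ℂ) + 1) ^ (-(2 * s)) else 0)
        ((1 - (2 : ℂ) ^ (-(2 * s))) * riemannZeta (2 * s) * (n : ℂ) ^ (1 - s) * ks s n))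
    (ε : ℤ) (hε : ε = 1 ∨ ε = -1) (η : ℝ) (hη : η = 1 ∨ η = -1) (F : ℝ → ℝ) (hF : TF F) :
    HP (fun s => gz η s * Fme ε F s) (1 / 8 * Ft F 0) ∧
    ∀ X : ℝ, 0 < X → ∀ n : ℕ, Odd n → ∀ σ0 : ℝ, 1 / 2 < σ0 → σ0 ≤ 1 →
      ((1 / 8 * ((∑' j : ℕ, bb1 (((j : ℤ) + 1) ^ 2) * Gk (((j : ℤ) + 1) ^ 2) n *
        Ft F ((ε : ℝ) / 4 * ((j : ℝ) + 1) ^ 2 * X / n)) / n) +
        η * Real.sqrt 2 / 8 * ((∑' j : ℕ, bb2 (((j : ℤ) + 1) ^ 2) * Gk (((j : ℤ) + 1) ^ 2) n *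
        Ft F ((ε : ℝ) / 8 * ((j : ℝ) + 1) ^ 2 * X / n)) / n) : ℝ) : ℂ) =
      Dsg (fun s => gz η s * Fme ε F s * riemannZeta (2 * s)) X n σ0 := by
  have hHP := FE1 ε hε F hF
  have hgzd : Differentiable ℂ (gz η) := by
    unfold gz
    intro s
    have h4 : DifferentiableAt ℂ (fun s : ℂ => (4 : ℂ) ^ s) s :=
      (differentiableAt_id).const_cpow (Or.inl (by norm_num))
    have h8 : DifferentiableAt ℂ (fun s : ℂ => (8 : ℂ) ^ s) s :=
      (differentiableAt_id).const_cpow (Or.inl (by norm_num))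
    have h2 : DifferentiableAt ℂ (fun s : ℂ => (2 : ℂ) ^ (-(2 * s))) s :=
      DifferentiableAt.const_cpow (by fun_prop) (Or.inl (by norm_num))
    fun_prop
  have hgzb : ∀ s : ℂ, 0 < s.re → s.re ≤ 1 → ‖gz η s‖ ≤ 5 := by
    intro s hs0 hs1
    have n4 : ‖(4 : ℂ) ^ s‖ ≤ 4 := by
      have := Complex.norm_cpow_eq_rpow_re_of_pos (x := 4) (by norm_num) s
      rw [show ((4 : ℝ) : ℂ) = 4 by norm_num] at this
      rw [this]
      calc (4 : ℝ) ^ s.re ≤ 4 ^ (1 : ℝ) := Real.rpow_le_rpow_of_exponent_le (by norm_num) hs1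
        _ = 4 := by norm_num
    have n8 : ‖(8 : ℂ) ^ s‖ ≤ 8 := by
      have := Complex.norm_cpow_eq_rpow_re_of_pos (x := 8) (by norm_num) s
      rw [show ((8 : ℝ) : ℂ) = 8 by norm_num] at this
      rw [this]
      calc (8 : ℝ) ^ s.re ≤ 8 ^ (1 : ℝ) := Real.rpow_le_rpow_of_exponent_le (by norm_num) hs1
        _ = 8 := by norm_num
    have n2 : ‖(2 : ℂ) ^ (-(2 * s))‖ ≤ 1 := by
      have := Complex.norm_cpow_eq_rpow_re_of_pos (x := 2) (by norm_num) (-(2 * s))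
      rw [show ((2 : ℝ) : ℂ) = 2 by norm_num] at this
      rw [this]
      refine Real.rpow_le_one_of_one_le_of_nonpos (by norm_num) ?_
      simp
      linarith
    have n3 : ‖1 - (2 : ℂ) ^ (-(2 * s))‖ ≤ 2 := by
      refine (norm_sub_le _ _).trans ?_
      rw [norm_one]
      linarith
    have nη : ‖(η : ℂ)‖ = 1 := by
      rcases hη with h | h <;> rw [h] <;> simp
    have ns : ‖((Real.sqrt 2 : ℝ) : ℂ)‖ ≤ 3 / 2 := by
      rw [Complex.norm_real, Real.norm_of_nonneg (Real.sqrt_nonneg 2)]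
      rw [Real.sqrt_le_left (by norm_num)]
      norm_num
    unfold gz
    rw [norm_mul]
    have e : ‖(1 / 8 : ℂ)‖ = 1 / 8 := by norm_num
    rw [e]
    have h5 : ‖(η : ℂ) * ((Real.sqrt 2 : ℝ) : ℂ) * (8 : ℂ) ^ s * (1 - (2 : ℂ) ^ (-(2 * s)))‖ ≤
        1 * (3 / 2) * 8 * 2 := by
      rw [norm_mul, norm_mul, norm_mul, nη]
      gcongr
    have h6 := norm_add_le ((4 : ℂ) ^ s)
      ((η : ℂ) * ((Real.sqrt 2 : ℝ) : ℂ) * (8 : ℂ) ^ s * (1 - (2 : ℂ) ^ (-(2 * s))))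
    linarith
  have hgz0 : gz η 0 = 1 / 8 := by
    unfold gz
    simp
  constructor
  · refine ⟨?_, ?_, ?_⟩
    · exact hgzd.differentiableOn.mul hHP.diff
    · intro A
      obtain ⟨C, hC⟩ := hHP.bd A
      refine ⟨5 * |C|, fun s hs0 hs1 => ?_⟩
      have hs : 0 < ‖s‖ := by
        have : s ≠ 0 := by
          intro h
          rw [h] at hs0
          simp at hs0
        exact norm_pos_iff.2 this
      have h2 := hC s hs0 hs1
      have h3 := hgzb s hs0 hs1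
      have h4 : C / (‖s‖ * (1 + ‖s‖) ^ A) ≤ |C| / (‖s‖ * (1 + ‖s‖) ^ A) :=
        div_le_div_of_nonneg_right (le_abs_self C) (by positivity)
      simp only [norm_mul]
      calc ‖gz η s‖ * ‖Fme ε F s‖ ≤ 5 * (|C| / (‖s‖ * (1 + ‖s‖) ^ A)) :=
            mul_le_mul h3 (h2.trans h4) (norm_nonneg _) (by norm_num)
        _ = 5 * |C| / (‖s‖ * (1 + ‖s‖) ^ A) := by ring
    · intro σ hσ
      have h2 := hHP.lim σ hσ
      have h3 : Tendsto (fun L : ℝ => gz η (σ / (L : ℂ))) atTop (𝓝 (gz η 0)) := by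
        refine (hgzd.continuous.tendsto 0).comp ?_
        have h5 : Tendsto (fun L : ℝ => ((L : ℂ))⁻¹) atTop (𝓝 0) := by
          have := (Complex.continuous_ofReal.tendsto 0).comp tendsto_inv_atTop_zero
          simpa [Function.comp_def] using this
        have h6 := h5.const_mul σ
        simpa [div_eq_mul_inv] using h6
      have h4 := h3.mul h2
      rw [hgz0] at h4
      have e : (1 / 8 : ℂ) * ((Ft F 0 : ℂ) / σ) = ((1 / 8 * Ft F 0 : ℝ) : ℂ) / σ := by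
        push_cast
        ring
      rw [e] at h4
      refine h4.congr fun L => ?_
      ring
  · intro X hX n hn σ0 h0 h1
    have hσ : 0 < σ0 := by linarith
    have hnpos : 0 < n := hn.pos
    have hM : ∀ ξ : ℝ, 0 < ξ → (Ft F ((ε : ℝ) * ξ) : ℂ) = (1 / (2 * Real.pi) : ℂ) *
        ∫ t : ℝ, Fme ε F ((σ0 : ℂ) + t * Complex.I) * (ξ : ℂ) ^ (-((σ0 : ℂ) + t * Complex.I)) :=
      fun ξ hξ => FE2 ε hε F hF ξ hξ σ0 hσ h1
    obtain ⟨i1, c1⟩ := core (Fme ε F) (fun ξ => Ft F ((ε : ℝ) * ξ)) hHP.diff (hHP.bd 1) σ0 h0 h1 hM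
      (X / 4) (by positivity) n hnpos (fun j => bb1 (((j : ℤ) + 1) ^ 2) * Gk (((j : ℤ) + 1) ^ 2) n)
      (2 * n) (fun j => by
        simp only [bb1_sq, one_mul]
        exact Gk_bound _ _)
      (fun s => riemannZeta (2 * s)) (fun s => ks s n) (fun s hs => by
        have := (PE5 n hn s hs).1
        refine this.congr_fun ?_ |> id
        intro j
        simp only [bb1_sq, one_mul])
    obtain ⟨i2, c2⟩ := core (Fme ε F) (fun ξ => Ft F ((ε : ℝ) * ξ)) hHP.diff (hHP.bd 1) σ0 h0 h1 hM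
      (X / 8) (by positivity) n hnpos (fun j => bb2 (((j : ℤ) + 1) ^ 2) * Gk (((j : ℤ) + 1) ^ 2) n)
      (2 * n) (fun j => by
        simp only [bb2_sq]
        have := Gk_bound (((j : ℤ) + 1) ^ 2) n
        have hn0 : (0 : ℝ) ≤ n := by positivity
        split_ifs
        · simpa using this
        · simpa using hn0)
      (fun s => (1 - (2 : ℂ) ^ (-(2 * s))) * riemannZeta (2 * s)) (fun s => ks s n)
      (fun s hs => by
        have := (PE5 n hn s hs).2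
        refine this.congr_fun ?_ |> id
        intro j
        simp only [bb2_sq]
        split_ifs <;> simp)
    have a1 : ∀ j : ℕ, (ε : ℝ) / 4 * ((j : ℝ) + 1) ^ 2 * X / n =
        (ε : ℝ) * (((j : ℝ) + 1) ^ 2 * (X / 4) / n) := fun j => by ring
    have a2 : ∀ j : ℕ, (ε : ℝ) / 8 * ((j : ℝ) + 1) ^ 2 * X / n =
        (ε : ℝ) * (((j : ℝ) + 1) ^ 2 * (X / 8) / n) := fun j => by ring
    simp only [a1, a2]
    rw [Complex.ofReal_add, Complex.ofReal_mul, Complex.ofReal_mul (η * Real.sqrt 2 / 8), c1, c2]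
    unfold Dsg
    have e1 : ∀ t : ℝ, (((X / 4 : ℝ)) : ℂ) ^ (-((σ0 : ℂ) + t * Complex.I)) =
        (X : ℂ) ^ (-((σ0 : ℂ) + t * Complex.I)) * (4 : ℂ) ^ ((σ0 : ℂ) + t * Complex.I) := by
      intro t
      rw [div_eq_mul_inv, Complex.ofReal_mul,
        Complex.mul_cpow_ofReal_nonneg hX.le (by norm_num)]
      congr 1
      rw [Complex.ofReal_inv, Complex.inv_cpow, ← Complex.cpow_neg, neg_neg]
      · norm_num
      · rw [Complex.arg_ofReal_of_nonneg (by norm_num)]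
        exact Real.pi_pos.ne
    have e2 : ∀ t : ℝ, (((X / 8 : ℝ)) : ℂ) ^ (-((σ0 : ℂ) + t * Complex.I)) =
        (X : ℂ) ^ (-((σ0 : ℂ) + t * Complex.I)) * (8 : ℂ) ^ ((σ0 : ℂ) + t * Complex.I) := by
      intro t
      rw [div_eq_mul_inv, Complex.ofReal_mul,
        Complex.mul_cpow_ofReal_nonneg hX.le (by norm_num)]
      congr 1
      rw [Complex.ofReal_inv, Complex.inv_cpow, ← Complex.cpow_neg, neg_neg]
      · norm_num
      · rw [Complex.arg_ofReal_of_nonneg (by norm_num)]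
        exact Real.pi_pos.ne
    have r1 : ∀ A B : ℂ, ((1 / 8 : ℝ) : ℂ) * ((1 / (2 * Real.pi) : ℂ) * A) +
        ((η * Real.sqrt 2 / 8 : ℝ) : ℂ) * ((1 / (2 * Real.pi) : ℂ) * B) =
        (1 / (2 * Real.pi) : ℂ) * (((1 / 8 : ℝ) : ℂ) * A + ((η * Real.sqrt 2 / 8 : ℝ) : ℂ) * B) :=
      fun A B => by ring
    rw [r1, ← integral_const_mul, ← integral_const_mul,
      ← integral_add (i1.const_mul _) (i2.const_mul _)]
    congr 1
    refine integral_congr_ae (Eventually.of_forall fun t => ?_)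
    simp only
    rw [e1, e2]
    unfold gz
    push_cast
    ring

theorem PH1 (ε : ℤ) (hε : ε = 1 ∨ ε = -1) (η : ℝ) (hη : η = 1 ∨ η = -1) (F : ℝ → ℝ) (hF : TF F) :
    HP (fun s => gz η s * Fme ε F s) (1 / 8 * Ft F 0) ∧
    ∀ X : ℝ, 0 < X → ∀ n : ℕ, Odd n → ∀ σ0 : ℝ, 1 / 2 < σ0 → σ0 ≤ 1 →
      ((1 / 8 * ((∑' j : ℕ, bb1 (((j : ℤ) + 1) ^ 2) * Gk (((j : ℤ) + 1) ^ 2) n *
        Ft F ((ε : ℝ) / 4 * ((j : ℝ) + 1) ^ 2 * X / n)) / n) +
        η * Real.sqrt 2 / 8 * ((∑' j : ℕ, bb2 (((j : ℤ) + 1) ^ 2) * Gk (((j : ℤ) + 1) ^ 2) n *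
        Ft F ((ε : ℝ) / 8 * ((j : ℝ) + 1) ^ 2 * X / n)) / n) : ℝ) : ℂ) =
      Dsg (fun s => gz η s * Fme ε F s * riemannZeta (2 * s)) X n σ0 :=
  PH1_of (fun ε hε F hF => Pool.Agent.H413R3.RG.FE1 ε hε F hF)
    (fun ε hε F hF ξ hξ σ0 h0 h1 => Pool.Agent.H413R3.RG.FE2 ε hε F hF ξ hξ σ0 h0 h1)
    (fun n hn s hs => Pool.Agent.H419R2.RG_PE5.PE5 n hn s hs) ε hε η hη F hF

end

end Pool.Agent.H420R6.RG_PH1
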